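import Mathlib

/-!
Even positively homogeneous functions of degree one, their gradients, and rank one matrices.
-/

set_option autoImplicit false

namespace Pool.Agent.U263.OC

open Set Module

noncomputable section

/-- Euclidean space -/
abbrev E (n : ℕ) : Type := EuclideanSpace ℝ (Fin n)

variable {n : ℕ}

/-- positive, absolutely homogeneous, differentiable away from the origin, continuous -/
structure Good (φ : E n → ℝ) : Prop where
  pos : ∀ x, x ≠ 0 → 0 < φ x
  hom : ∀ (c : ℝ) (x : E n), φ (c • x) = |c| * φ x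
  diff : ∀ x, x ≠ 0 → DifferentiableAt ℝ φ x
  cont : Continuous φ

/-- the coordinates of the gradient -/
def gr (φ : E n → ℝ) (v : E n) : Fin n → ℝ := fun i => fderiv ℝ φ v (EuclideanSpace.single i 1)

/-- the rank one matrix attached to a vector -/
def Am (φ : E n → ℝ) (v : E n) : Matrix (Fin n) (Fin n) ℝ := (φ v)⁻¹ • Matrix.vecMulVec (gr φ v) v.ofLp

/-- the set of these matrices -/
def GI (φ : E n → ℝ) : Set (Matrix (Fin n) (Fin n) ℝ) := {A | ∃ v : E n, v ≠ 0 ∧ A = Am φ v}

lemma gr_sum (φ : E n → ℝ) (v w : E n) : fderiv ℝ φ v w = ∑ i, gr φ v i * w i := by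
  conv_lhs => rw [← (EuclideanSpace.basisFun (Fin n) ℝ).sum_repr w]
  rw [map_sum]
  refine Finset.sum_congr rfl fun i _ => ?_
  rw [map_smul, smul_eq_mul, EuclideanSpace.basisFun_apply, EuclideanSpace.basisFun_repr, mul_comm]
  rfl

namespace Good

variable {φ : E n → ℝ} (h : Good φ)

include h

lemma zero : φ 0 = 0 := by
  have := h.hom 0 0
  simpa using this

lemma nonneg (x : E n) : 0 ≤ φ x := by
  by_cases hx : x = 0
  · rw [hx, h.zero]
  · exact (h.pos x hx).le

lemma neg (x : E n) : φ (-x) = φ x := by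
  have := h.hom (-1) x
  simpa using this

lemma euler (v : E n) (hv : v ≠ 0) : fderiv ℝ φ v v = φ v := by
  have h1 : HasDerivAt (fun t : ℝ => φ (v + t • v)) (fderiv ℝ φ v v) 0 := by
    have h2 : HasFDerivAt φ (fderiv ℝ φ v) (v + (0 : ℝ) • v) := by
      rw [zero_smul, add_zero]
      exact (h.diff v hv).hasFDerivAt
    have h3 : HasDerivAt (fun t : ℝ => v + t • v) v 0 := by
      have := ((hasDerivAt_id (0 : ℝ)).smul_const v).const_add v
      simpa using this
    exact h2.comp_hasDerivAt 0 h3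
  have h4 : HasDerivAt (fun t : ℝ => (1 + t) * φ v) (φ v) 0 := by
    have := ((hasDerivAt_id (0 : ℝ)).const_add 1).mul_const (φ v)
    simpa using this
  have h5 : (fun t : ℝ => φ (v + t • v)) =ᶠ[nhds 0] fun t : ℝ => (1 + t) * φ v := by
    have : ∀ᶠ t : ℝ in nhds 0, -1 < t := lt_mem_nhds (by norm_num)
    filter_upwards [this] with t ht
    have e : v + t • v = (1 + t) • v := by rw [add_smul, one_smul]
    rw [e, h.hom, abs_of_pos (by linarith)]
  exact h1.unique (h4.congr_of_eventuallyEq h5)

/-- a linear functional touching from below is the derivative -/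
lemma touch (l : E n →L[ℝ] ℝ) (hl : ∀ x, l x ≤ φ x) (u : E n) (hu : u ≠ 0) (he : l u = φ u) :
    fderiv ℝ φ u = l := by
  have h1 : IsLocalMin (fun x => φ x - l x) u := by
    refine Filter.Eventually.of_forall fun x => ?_
    have := hl x
    simp only
    linarith
  have h2 : HasFDerivAt (fun x => φ x - l x) (fderiv ℝ φ u - l) u := (h.diff u hu).hasFDerivAt.sub l.hasFDerivAt
  have h3 := h1.hasFDerivAt_eq_zero h2
  exact sub_eq_zero.mp h3

lemma fderiv_smul' (c : ℝ) (hc : c ≠ 0) (v w : E n) (hv : v ≠ 0) :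
    fderiv ℝ φ (c • v) w = |c| / c * fderiv ℝ φ v w := by
  have h1 : HasFDerivAt (fun x => φ (c • x)) ((fderiv ℝ φ (c • v)).comp (c • ContinuousLinearMap.id ℝ (E n))) v := by
    have h2 : HasFDerivAt (fun x : E n => c • x) (c • ContinuousLinearMap.id ℝ (E n)) v := (hasFDerivAt_id v).const_smul c
    exact (h.diff (c • v) (smul_ne_zero hc hv)).hasFDerivAt.comp v h2
  have h3 : HasFDerivAt (fun x => φ (c • x)) (|c| • fderiv ℝ φ v) v := by
    have h4 : (fun x => φ (c • x)) = fun x => |c| • φ x := by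
      funext x
      rw [h.hom, smul_eq_mul]
    rw [h4]
    exact (h.diff v hv).hasFDerivAt.const_smul |c|
  have h5 := congrArg (fun (f : E n →L[ℝ] ℝ) => f w) (h1.unique h3)
  simp at h5
  field_simp
  linarith

lemma Am_smul (c : ℝ) (hc : c ≠ 0) (v : E n) (hv : v ≠ 0) : Am φ (c • v) = Am φ v := by
  have hp := h.pos v hv
  have hc' : |c| ≠ 0 := abs_ne_zero.mpr hc
  ext i j
  simp only [Am, Matrix.smul_apply, Matrix.vecMulVec_apply, smul_eq_mul, h.hom]
  have : gr φ (c • v) i = |c| / c * gr φ v i := h.fderiv_smul' c hc v _ hv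
  rw [this]
  simp only [PiLp.smul_apply, smul_eq_mul]
  field_simp

end Good

/-- pairing of matrices -/
def pr (A M : Matrix (Fin n) (Fin n) ℝ) : ℝ := (A.transpose * M).trace

lemma pr_eq (A M : Matrix (Fin n) (Fin n) ℝ) : pr A M = ∑ i, ∑ j, A i j * M i j := by
  unfold pr
  simp only [Matrix.trace, Matrix.diag_apply, Matrix.mul_apply, Matrix.transpose_apply]
  exact Finset.sum_comm

end

end Pool.Agent.U263.OC
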