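import Mathlib

/-!
The convex hull of a compact set in a finite-dimensional space is compact (copy of a lemma of H212AN).
-/

set_option autoImplicit false

namespace Pool.Agent.U263.OC

open Set

section hullc

variable {V : Type*} [NormedAddCommGroup V] [NormedSpace ℝ V]

theorem hull_step {s : Set V} (hs : IsCompact s) (n : ℕ) :
    ∃ K : Set V, IsCompact K ∧ K ⊆ convexHull ℝ s ∧
      ∀ t : Finset V, (t : Set V) ⊆ s → t.card ≤ n + 1 → convexHull ℝ (t : Set V) ⊆ K := by
  classical
  induction n with
  | zero =>
    refine ⟨s, hs, subset_convexHull ℝ s, fun t hts hcard => ?_⟩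
    rcases Nat.eq_zero_or_pos t.card with h | h
    · rw [Finset.card_eq_zero] at h
      subst h
      simp
    · have h1 : t.card = 1 := by omega
      obtain ⟨x, rfl⟩ := Finset.card_eq_one.1 h1
      simpa using hts
  | succ n ih =>
    obtain ⟨K, hK, hKs, hKt⟩ := ih
    set f : V × V × ℝ → V := fun p => (1 - p.2.2) • p.1 + p.2.2 • p.2.1 with hf
    have hfc : Continuous f := by fun_prop
    refine ⟨K ∪ f '' (s ×ˢ K ×ˢ Icc (0:ℝ) 1), hK.union
      ((hs.prod (hK.prod isCompact_Icc)).image hfc), ?_, ?_⟩
    · refine union_subset hKs ?_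
      rintro _ ⟨⟨x, y, r⟩, ⟨hx, hy, hr⟩, rfl⟩
      exact (convex_convexHull ℝ s) (subset_convexHull ℝ s hx) (hKs hy)
        (by linarith [hr.2]) hr.1 (by ring)
    · intro t hts hcard
      rcases Nat.lt_or_ge (n + 1) t.card with h | h
      · obtain ⟨x, t', hxt', rfl, hcard'⟩ := Finset.card_eq_succ.1 (show t.card = (n + 1) + 1 by omega)
        have hne : (t' : Set V).Nonempty := by
          rw [Finset.coe_nonempty, ← Finset.card_pos]; omega
        rw [Finset.coe_insert, convexHull_insert hne]
        intro z hz
        rw [mem_convexJoin] at hz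
        obtain ⟨x', hx', y, hy, hz⟩ := hz
        rw [mem_singleton_iff] at hx'
        subst hx'
        have hyK : y ∈ K := hKt t' (fun w hw => hts (by simp [Finset.mem_coe.1 hw])) (by omega) hy
        rw [segment_eq_image] at hz
        obtain ⟨r, hr, rfl⟩ := hz
        refine Or.inr ⟨(x', y, r), ⟨hts (by simp), hyK, hr⟩, rfl⟩
      · exact (hKt t hts h).trans subset_union_left

/-- The convex hull of a compact set in a finite-dimensional space is compact. -/
theorem hull_compact [FiniteDimensional ℝ V] {s : Set V}
    (hs : IsCompact s) : IsCompact (convexHull ℝ s) := by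
  classical
  obtain ⟨K, hK, hKs, hKt⟩ := hull_step hs (Module.finrank ℝ V)
  have : convexHull ℝ s = K := by
    refine Subset.antisymm ?_ hKs
    rw [convexHull_eq_union]
    refine iUnion_subset fun t => iUnion_subset fun hts => iUnion_subset fun hai => ?_
    refine hKt t hts ?_
    have := hai.card_le_finrank_succ
    simpa using this.trans (Nat.succ_le_succ (Submodule.finrank_le _))
  rw [this]
  exact hK

end hullc

end Pool.Agent.U263.OC
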