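import Pool.Agent.U263.OC.A
import Pool.Agent.U263.OC.H

/-!
Supporting functionals from the atomic condition in dimension one.
-/

set_option autoImplicit false

namespace Pool.Agent.U263.OC

open Set Module

noncomputable section

variable {n : ℕ} {φ : E n → ℝ}

/-- comparison with the norm -/
lemma Good.comp (h : Good φ) (v : E n) (hv : v ≠ 0) : ∃ m M : ℝ, 0 < m ∧ 0 < M ∧ ∀ x : E n, m * ‖x‖ ≤ φ x ∧ φ x ≤ M * ‖x‖ := by
  have hc : IsCompact (Metric.sphere (0 : E n) 1) := isCompact_sphere 0 1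
  have hne : (Metric.sphere (0 : E n) 1).Nonempty := by
    refine ⟨‖v‖⁻¹ • v, ?_⟩
    rw [mem_sphere_zero_iff_norm, norm_smul, norm_inv, norm_norm]
    exact inv_mul_cancel₀ (norm_ne_zero_iff.mpr hv)
  obtain ⟨x0, hx0, h0⟩ := hc.exists_isMinOn hne h.cont.continuousOn
  obtain ⟨x1, hx1, h1⟩ := hc.exists_isMaxOn hne h.cont.continuousOn
  have hp : ∀ x ∈ Metric.sphere (0 : E n) 1, 0 < φ x := by
    intro x hx
    apply h.pos
    rintro rfl
    simp at hx
  refine ⟨φ x0, φ x1, hp x0 hx0, hp x1 hx1, ?_⟩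
  intro x
  by_cases hx : x = 0
  · subst hx
    simp [h.zero]
  · have hn : 0 < ‖x‖ := norm_pos_iff.mpr hx
    have hu : ‖x‖⁻¹ • x ∈ Metric.sphere (0 : E n) 1 := by
      rw [mem_sphere_zero_iff_norm, norm_smul, norm_inv, norm_norm]
      exact inv_mul_cancel₀ hn.ne'
    have he : φ x = φ (‖x‖⁻¹ • x) * ‖x‖ := by
      rw [h.hom, abs_of_pos (inv_pos.mpr hn)]
      field_simp
    have h2 : φ x0 ≤ φ (‖x‖⁻¹ • x) := h0 hu
    have h3 : φ (‖x‖⁻¹ • x) ≤ φ x1 := h1 hu
    rw [he]
    exact ⟨mul_le_mul_of_nonneg_right h2 hn.le, mul_le_mul_of_nonneg_right h3 hn.le⟩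

lemma Good.compact (h : Good φ) (v : E n) (hv : v ≠ 0) : IsCompact {x : E n | φ x = 1} := by
  obtain ⟨m, M, hm, hM, hmM⟩ := h.comp v hv
  refine Metric.isCompact_of_isClosed_isBounded (isClosed_singleton.preimage h.cont) ?_
  rw [Metric.isBounded_iff_subset_closedBall 0]
  refine ⟨1 / m, fun x hx => ?_⟩
  rw [mem_closedBall_zero_iff, le_div_iff₀ hm]
  have := (hmM x).1
  rw [mem_ofPred_eq] at hx
  linarith

lemma Good.mem_K (h : Good φ) (v : E n) (hv : v ≠ 0) (x : E n) (hx : φ x ≤ 1) : x ∈ convexHull ℝ {x : E n | φ x = 1} := by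
  have hK := convex_convexHull ℝ {x : E n | φ x = 1}
  have key : ∀ u : E n, φ u = 1 → ∀ t : ℝ, 0 ≤ t → t ≤ 1 → t • u ∈ convexHull ℝ {x : E n | φ x = 1} := by
    intro u hu t ht ht1
    have h1 : u ∈ convexHull ℝ {x : E n | φ x = 1} := subset_convexHull _ _ hu
    have h2 : -u ∈ convexHull ℝ {x : E n | φ x = 1} := subset_convexHull _ _ (by
      rw [mem_ofPred_eq, h.neg, hu])
    have h3 := hK h1 h2 (by linarith : 0 ≤ (1 + t) / 2) (by linarith : 0 ≤ (1 - t) / 2) (by ring)
    have e : ((1 + t) / 2) • u + ((1 - t) / 2) • (-u) = t • u := by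
      rw [smul_neg, ← sub_eq_add_neg, ← sub_smul]
      congr 1
      ring
    rwa [e] at h3
  by_cases h0 : x = 0
  · have hvp := h.pos v hv
    have := key ((φ v)⁻¹ • v) (by rw [h.hom, abs_of_pos (inv_pos.mpr hvp)]; exact inv_mul_cancel₀ hvp.ne') 0 le_rfl zero_le_one
    rw [zero_smul] at this
    rwa [h0]
  · have hxp := h.pos x h0
    have := key ((φ x)⁻¹ • x) (by rw [h.hom, abs_of_pos (inv_pos.mpr hxp)]; exact inv_mul_cancel₀ hxp.ne') (φ x) hxp.le hx
    rwa [smul_smul, mul_inv_cancel₀ hxp.ne', one_smul] at this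

lemma le_of_le_one (h : Good φ) (l : E n →L[ℝ] ℝ) (hl : ∀ x : E n, φ x = 1 → l x ≤ 1) (x : E n) : l x ≤ φ x := by
  by_cases h0 : x = 0
  · subst h0
    simp [h.zero]
  · have hxp := h.pos x h0
    have h1 := hl ((φ x)⁻¹ • x) (by rw [h.hom, abs_of_pos (inv_pos.mpr hxp)]; exact inv_mul_cancel₀ hxp.ne')
    rw [map_smul, smul_eq_mul, inv_mul_le_iff₀ hxp, mul_one] at h1
    exact h1

/-- the matrix with a functional and a vector -/
def Lm (l : E n →L[ℝ] ℝ) : E n →ₗ[ℝ] Matrix (Fin n) (Fin n) ℝ where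
  toFun y := Matrix.vecMulVec (fun i => l (EuclideanSpace.single i 1)) y.ofLp
  map_add' x y := by
    ext i j
    simp [Matrix.vecMulVec_apply, mul_add]
  map_smul' c x := by
    ext i j
    simp [Matrix.vecMulVec_apply]
    ring

lemma Lm_apply (l : E n →L[ℝ] ℝ) (y : E n) (i j : Fin n) : Lm l y i j = l (EuclideanSpace.single i 1) * y j := by
  simp [Lm, Matrix.vecMulVec_apply]

lemma Lm_inj (l : E n →L[ℝ] ℝ) (hl : l ≠ 0) : Function.Injective (Lm l) := by
  intro x y hxy
  have : ∃ i, l (EuclideanSpace.single i 1) ≠ 0 := by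
    by_contra hcon
    push Not at hcon
    apply hl
    ext w
    rw [← (EuclideanSpace.basisFun (Fin n) ℝ).sum_repr w, map_sum]
    simp only [map_smul, EuclideanSpace.basisFun_apply, hcon, smul_zero, Finset.sum_const_zero, ContinuousLinearMap.zero_apply]
  obtain ⟨i, hi⟩ := this
  ext j
  have h1 := congrFun (congrFun hxy i) j
  rw [Lm_apply, Lm_apply] at h1
  exact mul_left_cancel₀ hi h1

lemma Lm_rank (l : E n →L[ℝ] ℝ) (y : E n) : (Lm l y).rank ≤ 1 := Matrix.rank_vecMulVec_le _ _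

lemma Am_eq (h : Good φ) (l : E n →L[ℝ] ℝ) (u : E n) (hd : fderiv ℝ φ u = l) (h1 : φ u = 1) : Am φ u = Lm l u := by
  ext i j
  rw [Lm_apply, Am, Matrix.smul_apply, Matrix.vecMulVec_apply, h1, gr, hd]
  simp

/-- the atomic condition gives supporting functionals -/
theorem support (h : Good φ)
    (hex : ∀ A ∈ convexHull ℝ (GI φ), A.rank ≤ 1 → A ∈ (convexHull ℝ (GI φ)).extremePoints ℝ)
    (v : E n) (hv : v ≠ 0) (w : E n) : fderiv ℝ φ v w ≤ φ w := by
  set S : Set (E n) := {x : E n | φ x = 1} with hS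
  have hSc : IsCompact S := h.compact v hv
  have hKc : IsCompact (convexHull ℝ S) := hull_compact hSc
  have hKv := convex_convexHull ℝ S
  obtain ⟨m, M, hm, hM, hmM⟩ := h.comp v hv
  have hvp := h.pos v hv
  -- the origin is an interior point
  have hint : (0 : E n) ∈ interior (convexHull ℝ S) := by
    rw [mem_interior]
    refine ⟨Metric.ball 0 (1 / M), ?_, Metric.isOpen_ball, Metric.mem_ball_self (by positivity)⟩
    intro x hx
    apply h.mem_K v hv
    rw [mem_ball_zero_iff, lt_div_iff₀ hM] at hx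
    have := (hmM x).2
    linarith
  -- the last point on the ray
  set R : Set ℝ := {t : ℝ | t • v ∈ convexHull ℝ S} with hR
  have hRc : IsCompact R := by
    refine Metric.isCompact_of_isClosed_isBounded (hKc.isClosed.preimage (continuous_id.smul continuous_const)) ?_
    obtain ⟨B, hB⟩ := hKc.isBounded.exists_norm_le
    rw [Metric.isBounded_iff_subset_closedBall 0]
    refine ⟨B / ‖v‖, fun t ht => ?_⟩
    rw [mem_closedBall_zero_iff, le_div_iff₀ (norm_pos_iff.mpr hv), ← norm_smul]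
    exact hB _ ht
  have hv1 : (φ v)⁻¹ ∈ R := subset_convexHull _ _ (by
    rw [mem_ofPred_eq, h.hom, abs_of_pos (inv_pos.mpr hvp)]
    exact inv_mul_cancel₀ hvp.ne')
  obtain ⟨r, hr, hmax⟩ := hRc.exists_isGreatest ⟨_, hv1⟩
  have hrp : 0 < r := lt_of_lt_of_le (inv_pos.mpr hvp) (hmax hv1)
  have hni : r • v ∉ interior (convexHull ℝ S) := by
    intro hin
    rw [mem_interior_iff_mem_nhds] at hin
    have hc : ContinuousAt (fun t : ℝ => t • v) r := (continuous_id.smul continuous_const).continuousAt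
    have h1 := hc.preimage_mem_nhds hin
    rw [Metric.mem_nhds_iff] at h1
    obtain ⟨ε, hε, hb⟩ := h1
    have h2 : r + ε / 2 ∈ R := by
      apply hb
      rw [Metric.mem_ball, Real.dist_eq]
      rw [show r + ε / 2 - r = ε / 2 by ring, abs_of_pos (by linarith)]
      linarith
    have := hmax h2
    linarith
  obtain ⟨f, hf0, hf⟩ := geometric_hahn_banach_of_nonempty_interior_point hKv hni ⟨0, hint⟩
  have hfp : 0 < f (r • v) := by
    -- some vector with positive value
    obtain ⟨y, hy⟩ : ∃ y, f y ≠ 0 := by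
      by_contra hcon
      push Not at hcon
      exact hf0 (by ext z; simpa using hcon z)
    obtain ⟨y, hy⟩ : ∃ y, 0 < f y := by
      rcases lt_or_gt_of_ne hy with h1 | h1
      · exact ⟨-y, by rw [map_neg]; linarith⟩
      · exact ⟨y, h1⟩
    have hy0 : y ≠ 0 := by
      rintro rfl
      simp at hy
    have hyp := h.pos y hy0
    have h2 := hf ((φ y)⁻¹ • y) (subset_convexHull _ _ (by
      rw [mem_ofPred_eq, h.hom, abs_of_pos (inv_pos.mpr hyp)]
      exact inv_mul_cancel₀ hyp.ne'))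
    rw [map_smul, smul_eq_mul] at h2
    exact lt_of_lt_of_le (by positivity) h2
  set l : E n →L[ℝ] ℝ := (f (r • v))⁻¹ • f with hl
  have hlr : l (r • v) = 1 := by
    rw [hl, ContinuousLinearMap.smul_apply, smul_eq_mul]
    exact inv_mul_cancel₀ hfp.ne'
  have hl1 : ∀ x ∈ convexHull ℝ S, l x ≤ 1 := by
    intro x hx
    rw [hl, ContinuousLinearMap.smul_apply, smul_eq_mul, inv_mul_le_iff₀ hfp, mul_one]
    exact hf x hx
  have hl0 : l ≠ 0 := by
    intro h0
    rw [h0] at hlr
    simp at hlr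
  have hlφ := le_of_le_one h l fun x hx => hl1 x (subset_convexHull _ _ hx)
  -- representation of the boundary point
  have hrS : r • v ∈ convexHull ℝ S := hr
  obtain ⟨ι, _, c, z, hc0, hc1, hz, hsum⟩ := mem_convexHull_iff_exists_fintype.mp hrS
  have hlz : ∀ i, 0 < c i → l (z i) = 1 := by
    intro i hi
    have h1 : ∑ j, c j * (1 - l (z j)) = 0 := by
      have h2 : ∑ j, c j * l (z j) = 1 := by
        rw [← hlr, ← hsum, map_sum]
        exact Finset.sum_congr rfl fun j _ => by rw [map_smul, smul_eq_mul]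
      simp only [mul_sub, mul_one, Finset.sum_sub_distrib]
      rw [hc1, h2, sub_self]
    have h3 := (Finset.sum_eq_zero_iff_of_nonneg (fun j _ => mul_nonneg (hc0 j)
      (by have := hl1 (z j) (subset_convexHull _ _ (hz j)); linarith))).mp h1 i (Finset.mem_univ i)
    rcases mul_eq_zero.mp h3 with h4 | h4
    · linarith
    · linarith
  have hzA : ∀ i, 0 < c i → Lm l (z i) ∈ GI φ := by
    intro i hi
    have h1 : φ (z i) = 1 := hz i
    have hz0 : z i ≠ 0 := by
      intro h0
      rw [h0, h.zero] at h1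
      norm_num at h1
    refine ⟨z i, hz0, ?_⟩
    rw [Am_eq h l (z i) (h.touch l hlφ (z i) hz0 (by rw [hlz i hi, h1])) h1]
  -- the point of the hull of the Gauss image
  have hcl : Lm l (r • v) = ∑ i, c i • Lm l (z i) := by
    rw [← hsum, map_sum]
    exact Finset.sum_congr rfl fun j _ => by rw [map_smul]
  have hpos_sub : ∀ T : Set (Matrix (Fin n) (Fin n) ℝ), Convex ℝ T → (∀ i, 0 < c i → Lm l (z i) ∈ T) → Lm l (r • v) ∈ T := by
    intro T hT hTi
    rw [hcl]
    have h1 : ∑ i, c i • Lm l (z i) = ∑ i ∈ Finset.univ.filter (fun i => 0 < c i), c i • Lm l (z i) := by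
      rw [Finset.sum_filter]
      refine Finset.sum_congr rfl fun j _ => ?_
      by_cases hj : 0 < c j
      · rw [if_pos hj]
      · rw [if_neg hj, le_antisymm (not_lt.mp hj) (hc0 j), zero_smul]
    have h2 : ∑ i ∈ Finset.univ.filter (fun i => 0 < c i), c i = 1 := by
      rw [← hc1, Finset.sum_filter]
      refine Finset.sum_congr rfl fun j _ => ?_
      by_cases hj : 0 < c j
      · rw [if_pos hj]
      · rw [if_neg hj, le_antisymm (not_lt.mp hj) (hc0 j)]
    rw [h1]
    exact hT.sum_mem (fun i _ => hc0 i) h2 (fun i hi => hTi i (Finset.mem_filter.mp hi).2)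
  have hmem : Lm l (r • v) ∈ convexHull ℝ (GI φ) :=
    hpos_sub _ (convex_convexHull ℝ _) fun i hi => subset_convexHull _ _ (hzA i hi)
  have hext := hex _ hmem (Lm_rank l _)
  rw [(convex_convexHull ℝ (GI φ)).mem_extremePoints_iff_mem_sdiff_convexHull_sdiff] at hext
  have hone : ∃ i, 0 < c i ∧ Lm l (z i) = Lm l (r • v) := by
    by_contra hcon
    push Not at hcon
    apply hext.2
    exact hpos_sub _ (convex_convexHull ℝ _) fun i hi => subset_convexHull _ _
      ⟨subset_convexHull _ _ (hzA i hi), hcon i hi⟩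
  obtain ⟨i, hi, hie⟩ := hone
  have hzr : z i = r • v := Lm_inj l hl0 hie
  have hφr : φ (r • v) = 1 := by
    rw [← hzr]
    exact hz i
  have hrv : r • v ≠ 0 := smul_ne_zero hrp.ne' hv
  have hd := h.touch l hlφ (r • v) hrv (by rw [hlr, hφr])
  have hd2 : fderiv ℝ φ v w = l w := by
    have := h.fderiv_smul' r hrp.ne' v w hv
    rw [hd, abs_of_pos hrp, div_self hrp.ne', one_mul] at this
    exact this.symm
  rw [hd2]
  exact hlφ w

end

end Pool.Agent.U263.OC
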