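import Pool.Agent.U263.OC.B

/-!
Strict convexity, and the exposing functionals.
-/

set_option autoImplicit false

namespace Pool.Agent.U263.OC

open Set Module

noncomputable section

variable {n : ℕ} {φ : E n → ℝ}

/-- supporting functionals with strictness -/
def SP (φ : E n → ℝ) : Prop := ∀ v : E n, v ≠ 0 → ∀ w : E n, fderiv ℝ φ v w ≤ φ w ∧
  (w ≠ 0 → fderiv ℝ φ v w = φ w → ∃ c : ℝ, 0 < c ∧ w = c • v)

/-- strict convexity -/
def SC (φ : E n → ℝ) : Prop := ∀ v w : E n, v ≠ 0 → (∀ c : ℝ, w ≠ c • v) → φ (v + w) < φ v + φ w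

theorem sp_of_ex (h : Good φ)
    (hex : ∀ A ∈ convexHull ℝ (GI φ), A.rank ≤ 1 → A ∈ (convexHull ℝ (GI φ)).extremePoints ℝ) : SP φ := by
  intro v hv w
  refine ⟨support h hex v hv w, fun hw he => ?_⟩
  have hvp := h.pos v hv
  have hwp := h.pos w hw
  set l := fderiv ℝ φ v with hl
  have hlφ : ∀ x, l x ≤ φ x := fun x => support h hex v hv x
  set v' : E n := (φ v)⁻¹ • v with hv'
  set w' : E n := (φ w)⁻¹ • w with hw'
  have h1 : φ v' = 1 := by
    rw [hv', h.hom, abs_of_pos (inv_pos.mpr hvp)]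
    exact inv_mul_cancel₀ hvp.ne'
  have h2 : φ w' = 1 := by
    rw [hw', h.hom, abs_of_pos (inv_pos.mpr hwp)]
    exact inv_mul_cancel₀ hwp.ne'
  have h3 : l v' = 1 := by
    rw [hv', map_smul, smul_eq_mul, hl, h.euler v hv]
    exact inv_mul_cancel₀ hvp.ne'
  have h4 : l w' = 1 := by
    rw [hw', map_smul, smul_eq_mul, he]
    exact inv_mul_cancel₀ hwp.ne'
  have hv'0 : v' ≠ 0 := smul_ne_zero (inv_ne_zero hvp.ne') hv
  have hw'0 : w' ≠ 0 := smul_ne_zero (inv_ne_zero hwp.ne') hw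
  have hl0 : l ≠ 0 := by
    intro h0
    rw [h0] at h3
    simp at h3
  have g1 : Lm l v' ∈ convexHull ℝ (GI φ) := subset_convexHull _ _
    ⟨v', hv'0, (Am_eq h l v' (h.touch l hlφ v' hv'0 (by rw [h3, h1])) h1).symm⟩
  have g2 : Lm l w' ∈ convexHull ℝ (GI φ) := subset_convexHull _ _
    ⟨w', hw'0, (Am_eq h l w' (h.touch l hlφ w' hw'0 (by rw [h4, h2])) h2).symm⟩
  have hm : Lm l ((1 / 2 : ℝ) • v' + (1 / 2 : ℝ) • w') = (1 / 2 : ℝ) • Lm l v' + (1 / 2 : ℝ) • Lm l w' := by
    rw [map_add, LinearMap.map_smul (Lm l) (1 / 2 : ℝ) v', LinearMap.map_smul (Lm l) (1 / 2 : ℝ) w']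
  have g3 : Lm l ((1 / 2 : ℝ) • v' + (1 / 2 : ℝ) • w') ∈ convexHull ℝ (GI φ) := by
    rw [hm]
    exact (convex_convexHull ℝ _) g1 g2 (by norm_num) (by norm_num) (by norm_num)
  have g4 := hex _ g3 (Lm_rank l _)
  rw [mem_extremePoints] at g4
  obtain ⟨e1, e2⟩ := g4.2 _ g1 _ g2 ⟨1 / 2, 1 / 2, by norm_num, by norm_num, by norm_num, hm.symm⟩
  have e3 : v' = w' := Lm_inj l hl0 (e1.trans e2.symm)
  refine ⟨φ w * (φ v)⁻¹, by positivity, ?_⟩
  rw [mul_smul, ← hv', e3, hw', smul_smul, mul_inv_cancel₀ hwp.ne', one_smul]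

theorem sc_of_sp (h : Good φ) (hs : SP φ) : SC φ := by
  intro v w hv hvw
  have hvw0 : v + w ≠ 0 := by
    intro h0
    exact hvw (-1) (by rw [neg_one_smul]; exact (neg_eq_of_add_eq_zero_right h0).symm)
  have h1 := h.euler (v + w) hvw0
  rw [map_add] at h1
  have h2 := (hs (v + w) hvw0 v).1
  have h3 := (hs (v + w) hvw0 w).1
  have h4 : fderiv ℝ φ (v + w) v ≠ φ v := by
    intro he
    obtain ⟨c, hc, hce⟩ := (hs (v + w) hvw0 v).2 hv he
    apply hvw (c⁻¹ - 1)
    have : c⁻¹ • v = v + w := by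
      conv_lhs => rw [hce]
      rw [smul_smul, inv_mul_cancel₀ hc.ne', one_smul]
    rw [sub_smul, one_smul, this]
    abel
  have h5 := lt_of_le_of_ne h2 h4
  linarith

theorem sp_of_sc (h : Good φ) (hs : SC φ) : SP φ := by
  intro v hv
  have hvp := h.pos v hv
  have hsub : ∀ w : E n, φ (v + w) ≤ φ v + φ w := by
    intro w
    by_cases hc : ∃ c : ℝ, w = c • v
    · obtain ⟨c, rfl⟩ := hc
      have e : v + c • v = (1 + c) • v := by rw [add_smul, one_smul]
      rw [e, h.hom, h.hom]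
      have := abs_add_le 1 c
      rw [abs_one] at this
      nlinarith
    · push Not at hc
      exact (hs v w hv hc).le
  have hle : ∀ w : E n, fderiv ℝ φ v w ≤ φ w := by
    intro w
    have h1 : HasDerivAt (fun t : ℝ => φ (v + t • w)) (fderiv ℝ φ v w) 0 := by
      have h2 : HasFDerivAt φ (fderiv ℝ φ v) (v + (0 : ℝ) • w) := by
        rw [zero_smul, add_zero]
        exact (h.diff v hv).hasFDerivAt
      have h3 : HasDerivAt (fun t : ℝ => v + t • w) w 0 := by
        have := ((hasDerivAt_id (0 : ℝ)).smul_const w).const_add v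
        simpa using this
      exact h2.comp_hasDerivAt 0 h3
    have h2 := h1.tendsto_slope_zero_right
    refine le_of_tendsto h2 ?_
    filter_upwards [self_mem_nhdsWithin] with t ht
    have ht0 : 0 < t := ht
    have h3 := hsub (t • w)
    rw [h.hom, abs_of_pos ht0] at h3
    simp only [zero_add, zero_smul, add_zero, smul_eq_mul]
    rw [inv_mul_le_iff₀ ht0]
    linarith
  intro w
  refine ⟨hle w, fun hw he => ?_⟩
  by_cases hc : ∃ c : ℝ, w = c • v
  · obtain ⟨c, rfl⟩ := hc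
    rw [map_smul, smul_eq_mul, h.euler v hv, h.hom] at he
    have h1 : c = |c| := mul_right_cancel₀ hvp.ne' he
    have h2 : c ≠ 0 := by
      rintro rfl
      simp at hw
    exact ⟨c, lt_of_le_of_ne (by rw [h1]; exact abs_nonneg c) (Ne.symm h2), rfl⟩
  · push Not at hc
    exfalso
    have h1 := hs v w hv hc
    have h2 := hle (v + w)
    rw [map_add, h.euler v hv, he] at h2
    linarith

/-- the exposing functional -/
def lam (φ : E n → ℝ) (b : E n) : Matrix (Fin n) (Fin n) ℝ →ₗ[ℝ] ℝ where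
  toFun A := ∑ i, ∑ j, A i j * (b i * gr φ b j)
  map_add' A B := by
    simp only [Matrix.add_apply, add_mul, Finset.sum_add_distrib]
  map_smul' c A := by
    simp only [Matrix.smul_apply, smul_eq_mul, mul_assoc, Finset.mul_sum, RingHom.id_apply]

lemma lam_prod (b : E n) (x y : Fin n → ℝ) : lam φ b (fun i j => x i * y j) = (∑ i, x i * b i) * ∑ j, gr φ b j * y j := by
  change ∑ i, ∑ j, (x i * y j) * (b i * gr φ b j) = _
  rw [Finset.sum_mul_sum]
  exact Finset.sum_congr rfl fun i _ => Finset.sum_congr rfl fun j _ => by ring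

lemma lam_Am (b v : E n) : lam φ b (Am φ v) = (φ v)⁻¹ * (fderiv ℝ φ v b * fderiv ℝ φ b v) := by
  rw [Am, map_smul, smul_eq_mul, gr_sum, gr_sum]
  congr 1
  exact lam_prod b (gr φ v) v.ofLp

lemma lam_self (h : Good φ) (b : E n) (hb : b ≠ 0) : lam φ b (Am φ b) = φ b := by
  have := h.pos b hb
  rw [lam_Am, h.euler b hb]
  field_simp

lemma lam_GI (h : Good φ) (hs : SP φ) (b : E n) (hb : b ≠ 0) (v : E n) (hv : v ≠ 0) :
    lam φ b (Am φ v) ≤ φ b ∧ (lam φ b (Am φ v) = φ b → Am φ v = Am φ b) := by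
  have hbp := h.pos b hb
  have hvp := h.pos v hv
  have habs : ∀ u : E n, u ≠ 0 → ∀ w : E n, |fderiv ℝ φ u w| ≤ φ w := by
    intro u hu w
    rw [abs_le]
    have h1 := (hs u hu w).1
    have h2 := (hs u hu (-w)).1
    rw [map_neg, h.neg] at h2
    constructor <;> linarith
  have h1 := habs v hv b
  have h2 := habs b hb v
  have h3 : fderiv ℝ φ v b * fderiv ℝ φ b v ≤ |fderiv ℝ φ v b| * |fderiv ℝ φ b v| := by
    rw [← abs_mul]
    exact le_abs_self _
  have h4 : |fderiv ℝ φ v b| * |fderiv ℝ φ b v| ≤ |fderiv ℝ φ v b| * φ v :=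
    mul_le_mul_of_nonneg_left h2 (abs_nonneg _)
  have h5 : |fderiv ℝ φ v b| * φ v ≤ φ b * φ v := mul_le_mul_of_nonneg_right h1 hvp.le
  rw [lam_Am]
  constructor
  · rw [inv_mul_le_iff₀ hvp]
    linarith
  · intro he
    have h6 : fderiv ℝ φ v b * fderiv ℝ φ b v = φ v * φ b := by
      rw [← he]
      field_simp
    have h7 : |fderiv ℝ φ v b| = φ b := by
      apply le_antisymm h1
      have : φ b * φ v ≤ |fderiv ℝ φ v b| * φ v := by linarith
      exact le_of_mul_le_mul_right this hvp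
    rcases abs_cases (fderiv ℝ φ v b) with ⟨h8, -⟩ | ⟨h8, -⟩
    · obtain ⟨c, hc, hce⟩ := (hs v hv b).2 hb (by rw [← h8, h7])
      rw [hce, h.Am_smul c hc.ne' v hv]
    · obtain ⟨c, hc, hce⟩ := (hs v hv (-b)).2 (neg_ne_zero.mpr hb) (by rw [map_neg, h.neg, ← h8, h7])
      have : b = (-c) • v := by rw [neg_smul, ← hce, neg_neg]
      rw [this, h.Am_smul (-c) (neg_ne_zero.mpr hc.ne') v hv]

lemma lam_conv (h : Good φ) (hs : SP φ) (b : E n) (hb : b ≠ 0) (A : Matrix (Fin n) (Fin n) ℝ)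
    (hA : A ∈ convexHull ℝ (GI φ)) : lam φ b A ≤ φ b ∧ (lam φ b A = φ b → A = Am φ b) := by
  have hsub : convexHull ℝ (GI φ) ⊆ {A | lam φ b A ≤ φ b ∧ (lam φ b A = φ b → A = Am φ b)} := by
    apply convexHull_min
    · rintro _ ⟨v, hv, rfl⟩
      exact lam_GI h hs b hb v hv
    · rintro X ⟨hX1, hX2⟩ Y ⟨hY1, hY2⟩ s t hs0 ht0 hst
      have e : lam φ b (s • X + t • Y) = s * lam φ b X + t * lam φ b Y := by
        rw [map_add, map_smul, map_smul, smul_eq_mul, smul_eq_mul]
      have h1 : s * lam φ b X ≤ s * φ b := mul_le_mul_of_nonneg_left hX1 hs0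
      have h2 : t * lam φ b Y ≤ t * φ b := mul_le_mul_of_nonneg_left hY1 ht0
      have h3 : s * φ b + t * φ b = φ b := by rw [← add_mul, hst, one_mul]
      refine ⟨by rw [e]; linarith, fun he => ?_⟩
      rw [e] at he
      have h4 : s * lam φ b X = s * φ b := by linarith
      have h5 : t * lam φ b Y = t * φ b := by linarith
      have h6 : s • X = s • Am φ b := by
        rcases eq_or_lt_of_le hs0 with h0 | h0
        · rw [← h0, zero_smul, zero_smul]
        · rw [hX2 (mul_left_cancel₀ h0.ne' h4)]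
      have h7 : t • Y = t • Am φ b := by
        rcases eq_or_lt_of_le ht0 with h0 | h0
        · rw [← h0, zero_smul, zero_smul]
        · rw [hY2 (mul_left_cancel₀ h0.ne' h5)]
      rw [h6, h7, ← add_smul, hst, one_smul]
  exact hsub hA

/-- every point of the Gauss image is exposed -/
theorem exposed (h : Good φ) (hs : SP φ) : GI φ ⊆ (convexHull ℝ (GI φ)).exposedPoints ℝ := by
  rintro _ ⟨b, hb, rfl⟩
  refine ⟨subset_convexHull _ _ ⟨b, hb, rfl⟩, LinearMap.toContinuousLinearMap (lam φ b), fun y hy => ?_⟩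
  have h1 := lam_conv h hs b hb y hy
  rw [LinearMap.coe_toContinuousLinearMap', lam_self h b hb]
  exact ⟨h1.1, fun h2 => h1.2 (le_antisymm h1.1 h2)⟩

lemma rank_one (A : Matrix (Fin n) (Fin n) ℝ) (hA : A.rank ≤ 1) : ∃ a b : Fin n → ℝ, A = fun i j => a i * b j := by
  rw [Matrix.rank, finrank_le_one_iff] at hA
  obtain ⟨⟨a, ha'⟩, ha⟩ := hA
  have h1 : ∀ j : Fin n, ∃ c : ℝ, c • a = A.mulVec (Pi.single j 1) := by
    intro j
    obtain ⟨c, hc⟩ := ha ⟨A.mulVecLin (Pi.single j 1), LinearMap.mem_range_self _ _⟩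
    exact ⟨c, congrArg Subtype.val hc⟩
  choose c hc using h1
  refine ⟨a, c, ?_⟩
  ext i j
  have := congrFun (hc j) i
  rw [Matrix.mulVec_single_one] at this
  simp only [Pi.smul_apply, smul_eq_mul] at this
  change c j * a i = A i j at this
  rw [← this]
  ring

lemma trace_one (h : Good φ) (A : Matrix (Fin n) (Fin n) ℝ) (hA : A ∈ convexHull ℝ (GI φ)) : ∑ i, A i i = 1 := by
  have hsub : convexHull ℝ (GI φ) ⊆ {A : Matrix (Fin n) (Fin n) ℝ | ∑ i, A i i = 1} := by
    apply convexHull_min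
    · rintro _ ⟨v, hv, rfl⟩
      have hvp := h.pos v hv
      have h1 := h.euler v hv
      rw [gr_sum] at h1
      change ∑ i, (φ v)⁻¹ * (gr φ v i * v i) = 1
      rw [← Finset.mul_sum, h1]
      exact inv_mul_cancel₀ hvp.ne'
    · rintro X hX Y hY s t hs0 ht0 hst
      have hX' : ∑ i, X i i = 1 := hX
      have hY' : ∑ i, Y i i = 1 := hY
      change ∑ i, (s * X i i + t * Y i i) = 1
      rw [Finset.sum_add_distrib, ← Finset.mul_sum, ← Finset.mul_sum, hX', hY']
      linarith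
  exact hsub hA

/-- no further matrices of rank one -/
theorem ranks (h : Good φ) (hs : SP φ) : convexHull ℝ (GI φ) ∩ {A | A.rank ≤ 1} = GI φ := by
  apply Subset.antisymm
  · rintro A ⟨hA, hr⟩
    obtain ⟨a, b, hab⟩ := rank_one A hr
    have ht := trace_one h A hA
    have ht2 : ∑ i, a i * b i = 1 := by
      rw [← ht, hab]
    set bE : E n := WithLp.toLp 2 b with hbE
    have hb : bE ≠ 0 := by
      intro h0
      have : ∀ i, b i = 0 := fun i => congrFun (congrArg WithLp.ofLp h0) i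
      simp [this] at ht2
    have hlam : lam φ bE A = φ bE := by
      rw [hab, lam_prod]
      have h1 := h.euler bE hb
      rw [gr_sum] at h1
      have h2 : ∑ i, a i * bE i = 1 := ht2
      rw [h2, one_mul]
      exact h1
    exact ⟨bE, hb, (lam_conv h hs bE hb A hA).2 hlam⟩
  · rintro _ ⟨v, hv, rfl⟩
    refine ⟨subset_convexHull _ _ ⟨v, hv, rfl⟩, ?_⟩
    rw [mem_ofPred_eq, Am, ← Matrix.smul_vecMulVec]
    exact Matrix.rank_vecMulVec_le _ _

end

end Pool.Agent.U263.OC
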